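import Mathlib

/-!
In every T0 space the second derived set of every subset is closed.
-/

set_option autoImplicit false

namespace Pool.Agent.Results.MP_091ced_gt.SecondDerivedClosed

/-- In every `T₀`-space `X` and for every subset `A` of `X`, the second derived set `(A^d)^d`
is closed.  (`derivedSet A` is Mathlib's set of accumulation points `x` of `A`, i.e. the points
`x` in the closure of `A \ {x}`.) -/
theorem result : ∀ (X : Type*) [TopologicalSpace X] [T0Space X] (A : Set X),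
    IsClosed (derivedSet (derivedSet A)) := by
  intro X _ _ A
  -- `x` is an accumulation point of `B` iff every open neighbourhood meets `B \ {x}`.
  have key : ∀ (B : Set X) (x : X), x ∈ derivedSet B ↔
      ∀ U : Set X, IsOpen U → x ∈ U → ∃ y ∈ U, y ∈ B ∧ y ≠ x := by
    intro B x
    rw [mem_derivedSet, accPt_iff_nhds]
    constructor
    · intro h U hU hxU
      obtain ⟨y, ⟨hyU, hyB⟩, hyx⟩ := h U (hU.mem_nhds hxU)
      exact ⟨y, hyU, hyB, hyx⟩
    · intro h U hU
      obtain ⟨V, hVU, hV, hxV⟩ := mem_nhds_iff.mp hU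
      obtain ⟨y, hyV, hyB, hyx⟩ := h V hV hxV
      exact ⟨y, ⟨hVU hyV, hyB⟩, hyx⟩
  rw [← closure_subset_iff_isClosed]
  intro x hx
  by_contra hxn
  -- an open neighbourhood `U` of `x` with `U ∩ A^d ⊆ {x}`
  rw [key] at hxn
  push Not at hxn
  obtain ⟨U, hU, hxU, hUx⟩ := hxn
  -- a point `y` of `A^{dd}` in `U`
  obtain ⟨y, hyU, hy⟩ := mem_closure_iff.mp hx U hU hxU
  have hyx : y ≠ x := by
    rintro rfl
    rw [key] at hy
    obtain ⟨z, hzU, hzA, hzy⟩ := hy U hU hyU
    exact hzy (hUx z hzU hzA)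
  rw [key] at hy
  -- every open neighbourhood of `y` contains `x`, and `x ∈ A^d`
  have h1 : ∀ W : Set X, IsOpen W → y ∈ W → x ∈ W ∧ x ∈ derivedSet A := by
    intro W hW hyW
    obtain ⟨z, ⟨hzW, hzU⟩, hzA, hzy⟩ := hy (W ∩ U) (hW.inter hU) ⟨hyW, hyU⟩
    have hzx : z = x := hUx z hzU hzA
    subst hzx
    exact ⟨hzW, hzA⟩
  have hxA : x ∈ derivedSet A := (h1 U hU hyU).2
  -- `y` is not in `A^d`
  have hyA : y ∉ derivedSet A := fun h => hyx (hUx y hyU h)
  rw [key] at hyA
  push Not at hyA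
  obtain ⟨V, hV, hyV, hVy⟩ := hyA
  -- every open neighbourhood of `x` contains `y`
  have h2 : ∀ W : Set X, IsOpen W → x ∈ W → y ∈ W := by
    intro W hW hxW
    obtain ⟨z, ⟨hzW, hzV⟩, hzA, hzx⟩ :=
      (key A x).mp hxA (W ∩ V) (hW.inter hV) ⟨hxW, (h1 V hV hyV).1⟩
    have hzy : z = y := hVy z hzV hzA
    subst hzy
    exact hzW
  apply hyx
  apply Inseparable.eq
  rw [inseparable_iff_forall_isOpen]
  intro W hW
  exact ⟨fun h => (h1 W hW h).1, fun h => h2 W hW h⟩

end Pool.Agent.Results.MP_091ced_gt.SecondDerivedClosed
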